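import Pool.Agent.Shared.PolyTimeConv

/-!
Polynomial-time decoders for the bit encodings, and membership in `NP` of bounded existential
statements about decoded strings.
-/

namespace Pool.Agent.Lib.MP_8f56c4_lc

open Function N487b59b3 Pool.Agent.Shared.PolyTime

/-- A polynomial-time left inverse of the bit encoding. -/
class Dec (α : Type) [N487b59b3 α] where
  dec : List Bool → α
  pt : PT dec
  dec_enc : ∀ a : α, dec (bitEncode a) = a

variable {α β : Type} [N487b59b3 α] [N487b59b3 β]

@[fun_prop] theorem pt_fstR {f : α → List Bool} (hf : PT f) : PT (fun a => fstR (f a)) :=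
  (RP.toBits.post (RP.fstR.post hf.raw)).congr fun _ => (enc_listBool _).symm

@[fun_prop] theorem pt_sndR {f : α → List Bool} (hf : PT f) : PT (fun a => sndR (f a)) :=
  (RP.toBits.post (RP.sndR.post hf.raw)).congr fun _ => (enc_listBool _).symm

@[fun_prop] theorem pt_dec [Dec β] {f : α → List Bool} (hf : PT f) :
    PT (fun a => (Dec.dec (f a) : β)) := Dec.pt.comp' hf

theorem len_split (x : List Bool) : (fstR x).length + (sndR x).length ≤ x.length := by
  fun_induction sndR x <;> simp_all [fstR]; omega

/-- One step of the splitting of a string into delimited blocks. -/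
def bstep (s : List Bool × List (List Bool)) : List Bool × List (List Bool) :=
  cond s.1.isEmpty s (sndR s.1, s.2 ++ [fstR s.1])

/-- The delimited blocks of a string. -/
def blocks (x : List Bool) : List (List Bool) := (bstep^[x.length] (x, [])).2

theorem bstep_iter (l : List (List Bool)) : ∀ (n : ℕ) (acc : List (List Bool)), l.length ≤ n →
    bstep^[n] ((l.map delimit).flatten, acc) = ([], acc ++ l) := by
  induction l with
  | nil => intro n acc _; exact (iterate_fixed (by simp [bstep]) n).trans (by simp)
  | cons b l ih =>
    intro n acc h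
    obtain ⟨n, rfl⟩ : ∃ k, n = k + 1 := ⟨n - 1, by simp at h; omega⟩
    rw [iterate_succ_apply]
    have h1 : bstep (((b :: l).map delimit).flatten, acc) = ((l.map delimit).flatten, acc ++ [b]) := by
      have h2 : (delimit b ++ (l.map delimit).flatten).isEmpty = false := by
        cases b <;> simp [delimit]
      simp only [bstep, List.map_cons, List.flatten_cons, h2, cond_false, fstR_delimit,
        sndR_delimit]
    rw [h1, ih n _ (by simpa using h)]
    simp

theorem blocks_enc (l : List (List Bool)) : blocks (l.map delimit).flatten = l := by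
  unfold blocks
  rw [bstep_iter l _ _ (length_le_length_flatten_delimit l)]
  simp

theorem pt_blocks : PT blocks := by
  have := PT.iterate_grow (α := List Bool) (f := fun _ s => bstep s) (n := fun x => x.length)
    (s0 := fun x => (x, [])) (by unfold bstep; fun_prop) (by fun_prop) (by fun_prop)
    (by fun_prop) (g := fun _ => 7) (by fun_prop) (fun _ s => by
      unfold bstep
      cases h : s.1.isEmpty
      · have := len_split s.1
        rw [sz_prod s]
        simp only [cond_false, sz_pair, sz_append, sz_cons, sz_nil, sz_listBool]
        omega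
      · simp)
  exact this.snd

instance : Dec ℕ where
  dec := val
  pt := PT.val PT.id'
  dec_enc n := by rw [enc_nat, val_bits]

instance : Dec Bool where
  dec l := l.headD false
  pt := by fun_prop
  dec_enc _ := rfl

instance [Dec α] [Dec β] : Dec (α × β) where
  dec l := (Dec.dec (fstR l), Dec.dec (sndR l))
  pt := by fun_prop
  dec_enc p := by
    obtain ⟨a, b⟩ := p
    rw [enc_pair, fstR_delimit, sndR_delimit, Dec.dec_enc, Dec.dec_enc]

instance [Dec α] : Dec (List α) where
  dec l := (blocks l).map Dec.dec
  pt := PT.map (h := fun _ x => Dec.dec x) pt_blocks (by fun_prop)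
  dec_enc l := by
    have : bitEncode l = ((l.map bitEncode).map delimit).flatten := rfl
    rw [this, blocks_enc, List.map_map]
    conv_rhs => rw [← List.map_id l]
    exact List.map_congr_left fun a _ => Dec.dec_enc a

theorem bits_val_true (w : List Bool) : (val (w ++ [true])).bits = w ++ [true] := by
  induction w with
  | nil => simp [val]
  | cons b w ih =>
    have h0 : val (w ++ [true]) ≠ 0 := by
      intro h; rw [h] at ih; simp at ih
    rw [List.cons_append, val]
    cases b
    · rw [Bool.toNat_false, zero_add, Nat.bit0_bits _ h0, ih]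
    · rw [Bool.toNat_true, Nat.add_comm 1, Nat.bit1_bits, ih]

/-- Bounded existential statements are in `NP`. -/
theorem mem_NP [Dec α] {M : α → ℕ} {B : α → ℕ → Bool} (hM : PT M)
    (hB : PT fun p : α × ℕ => B p.1 p.2) :
    ∃ L ∈ N68a2faeb.NP, ∀ a : α, L (bitEncode a) = true ↔ ∃ y < M a, B a y = true := by
  classical
  have h1 : PB (fun l : List Bool => sz (M (Dec.dec l))) := by fun_prop
  obtain ⟨q, hq⟩ := h1
  refine ⟨fun l => decide (∃ y < M (Dec.dec l), B (Dec.dec l) y = true),
    ⟨q.comp (3 * Polynomial.X), fun p => decide (val p.2 < M (Dec.dec p.1)) &&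
      B (Dec.dec p.1) (val p.2), PT.isPolyTime ?_, fun l => ?_⟩, fun a => ?_⟩
  · refine PT.and (by fun_prop) ?_
    exact hB.comp' (f := fun p : List Bool × List Bool => ((Dec.dec p.1 : α), val p.2))
      (by fun_prop)
  · simp only [decide_eq_true_eq, Bool.and_eq_true]
    constructor
    · rintro ⟨y, hy, hb⟩
      refine ⟨y.bits, ?_, by rwa [val_bits], by rwa [val_bits]⟩
      have h2 := hq l
      have h3 : (bitEncode l).length = 3 * l.length := sz_listBool l
      have h4 := sz_nat_mono hy.le
      rw [h3] at h2
      have h5 : sz y = y.bits.length := by rw [sz, enc_nat]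
      simp only [Polynomial.eval_comp, Polynomial.eval_mul, Polynomial.eval_X,
        Polynomial.eval_ofNat]
      beta_reduce at h2
      omega
    · rintro ⟨w, -, h2, h3⟩
      exact ⟨_, h2, h3⟩
  · simp [Dec.dec_enc]

end Pool.Agent.Lib.MP_8f56c4_lc
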