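import Pool.Agent.Lib.MP_8f56c4_lc.Main

/-!
If the answer vectors of parallel `NP` queries have polynomial-time enumerators, then `NP ⊆ P`.
-/

namespace Pool.Agent.Lib.MP_8f56c4_lc

open Function N487b59b3 Pool.Agent.Shared.PolyTime N68a2faeb

attribute [local fun_prop] PB.comp

theorem pt_eval {α : Type} [N487b59b3 α] (q : Polynomial ℕ) {g : α → ℕ} (hg : PT g) :
    PT (fun a => q.eval (g a)) := by
  induction q using Polynomial.induction_on' with
  | add p q hp hq => simpa only [Polynomial.eval_add] using hp.add hq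
  | monomial n c =>
    simp only [Polynomial.eval_monomial]
    exact (PT.const c).mul (hg.pow (PT.const n) (PB.const n))

theorem P_subset_NP : P ⊆ NP := by
  intro L hL
  have h : PT L := PT.ofIsPolyTime hL
  exact ⟨0, fun p => L p.1, PT.isPolyTime (h.comp' (PT.fst PT.id')),
    fun x => ⟨fun h => ⟨[], by simp, h⟩, fun ⟨_, _, h⟩ => h⟩⟩

theorem NP_subset_P (H : ∀ L ∈ NP, ∀ g : List Bool → List (List Bool), PT g →
    ∃ E : List Bool → List (List Bool), PT E ∧ ∀ x, (g x).map L ∈ E x) : NP ⊆ P := by
  rintro L0 ⟨q, R, hR, hL0⟩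
  replace hR := PT.ofIsPolyTime hR
  let V : List Bool → ℕ → Bool := fun x y =>
    decide (y.bits.dropLast.length ≤ q.eval x.length) && R (x, y.bits.dropLast)
  have hq : PT fun x : List Bool => q.eval x.length := pt_eval q (by fun_prop)
  have bq : PB fun x : List Bool => q.eval x.length := PBe.eval (PB.length PT.id') q
  have hV : PT fun p : List Bool × ℕ => V p.1 p.2 :=
    PT.and (PT.decide_le (by fun_prop) (hq.comp' (PT.fst PT.id'))) (by fun_prop)
  obtain ⟨L, hL, hLs⟩ := mem_NP (α := St × ℕ) (M := fun a => 2 ^ (a.1.1.2.length - a.1.2.length))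
    (B := fun a y => qry V a.1 a.2 y) (by fun_prop) (pt_qry hV)
  obtain ⟨E, hE, hEs⟩ := H L hL (fun l => (List.range (pp (Dec.dec l : St).1.2 *
      pp (Dec.dec l : St).1.2 * ((Dec.dec l : St).1.2.length + 1))).map
        fun i => bitEncode ((Dec.dec l : St), i)) (by fun_prop)
  have hE' : PT fun s : St => E (bitEncode s) := by fun_prop
  obtain ⟨C, hC⟩ := alg_complete (V := V) hE' fun s => ⟨_, hEs _, fun i hi => by
    simp only [Dec.dec_enc, List.map_map]
    rw [List.getD_eq_getElem _ _ (by simpa using hi)]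
    simpa using hLs (s, i)⟩
  have hA := pt_alg hV hE'
  have h1 : PT fun x : List Bool => alg V (fun s : St => E (bitEncode s))
      (x, List.replicate (q.eval x.length + 1 + x.length + C) true) :=
    hA.comp' (PT.pair PT.id' (PT.replicate (by fun_prop) (by fun_prop) (PT.const _)))
  refine PT.isPolyTime (h1.of_eq fun x => ?_)
  rw [Bool.eq_iff_iff, hL0]
  constructor
  · intro h
    obtain ⟨y, hy⟩ := alg_sound h
    simp only [V, Bool.and_eq_true, decide_eq_true_eq] at hy
    exact ⟨_, hy⟩
  · rintro ⟨w, hw, hRw⟩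
    refine hC _ (by simp) (by simp; omega) ⟨val (w ++ [true]), (val_lt _).trans_le ?_, ?_⟩
    · exact Nat.pow_le_pow_right (by omega) (by simp; omega)
    · simp [V, bits_val_true, hw, hRw]

end Pool.Agent.Lib.MP_8f56c4_lc
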