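import Pool.Agent.Shared.PolyTimeConv

/-!
Greedy hitting sets for short lists of dense vectors.
-/

namespace Pool.Agent.Lib.MP_8f56c4_lc

open Function N487b59b3 Pool.Agent.Shared.PolyTime

/-- Position `t * w + (w - 1)` of the vector `v`. -/
def al (N : ℕ) (v : List Bool) (t : ℕ) : Bool := v.getD (t * (N + 1) + N) false

/-- A test that is alive in at least the fraction `1 / m` of the vectors. -/
def pick (N m : ℕ) (ts : List ℕ) (L : List (List Bool)) : ℕ :=
  (ts.find? fun t => decide (L.length ≤ m * L.countP fun v => al N v t)).getD 0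

/-- One greedy step. -/
def gstep (N m : ℕ) (ts : List ℕ) (s : List (List Bool) × List ℕ) : List (List Bool) × List ℕ :=
  (s.1.filter fun v => !al N v (pick N m ts s.1), pick N m ts s.1 :: s.2)

/-- The tests chosen by `k` greedy steps. -/
def greedy (N m k : ℕ) (ts : List ℕ) (L : List (List Bool)) : List ℕ :=
  ((gstep N m ts)^[k] (L, [])).2

variable {α : Type} [N487b59b3 α]

attribute [local fun_prop] PB.comp

@[fun_prop] theorem pt_al {N t : α → ℕ} {v : α → List Bool} (hN : PT N) (hv : PT v) (ht : PT t) :
    PT fun a => al (N a) (v a) (t a) := by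
  unfold al; fun_prop

@[fun_prop] theorem pt_pick {N m : α → ℕ} {ts : α → List ℕ} {L : α → List (List Bool)}
    (hN : PT N) (hm : PT m) (hts : PT ts) (hL : PT L) :
    PT fun a => pick (N a) (m a) (ts a) (L a) := by
  unfold pick; fun_prop

theorem pick_mem (N m : ℕ) (ts : List ℕ) (L : List (List Bool)) :
    pick N m ts L = 0 ∨ pick N m ts L ∈ ts := by
  unfold pick
  cases h : ts.find? fun t => decide (L.length ≤ m * L.countP fun v => al N v t) with
  | none => exact Or.inl rfl
  | some t => exact Or.inr (List.mem_of_find?_eq_some h)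

theorem sz_pick (N m : ℕ) (ts : List ℕ) (L : List (List Bool)) : sz (pick N m ts L) ≤ sz ts := by
  rcases pick_mem N m ts L with h | h
  · rw [h]; exact (sz_nat_le 0).trans (Nat.zero_le _)
  · have := sz_mem h; omega

@[fun_prop] theorem pt_greedy {N m k : α → ℕ} {ts : α → List ℕ} {L : α → List (List Bool)}
    (hN : PT N) (hm : PT m) (hk : PT k) (bk : PB k) (hts : PT ts) (hL : PT L) :
    PT fun a => greedy (N a) (m a) (k a) (ts a) (L a) := by
  have := PT.iterate_grow (f := fun a s => gstep (N a) (m a) (ts a) s) (s0 := fun a => (L a, []))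
    (by unfold gstep; fun_prop) hk bk (by fun_prop) (g := fun a => 2 * sz (ts a) + 1)
    (by fun_prop) (fun a s => by
      have h1 := sz_pick (N a) (m a) (ts a) s.1
      have h2 := sz_sublist (List.filter_sublist (l := s.1)
        (p := fun v => !al (N a) v (pick (N a) (m a) (ts a) s.1)))
      rw [sz_prod s]
      simp only [gstep, sz_pair, sz_cons]
      omega)
  exact this.snd

theorem length_greedy (N m k : ℕ) (ts : List ℕ) (L : List (List Bool)) :
    (greedy N m k ts L).length = k := by
  unfold greedy
  induction k with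
  | zero => rfl
  | succ k ih => rw [iterate_succ_apply']; simp [gstep, ih]

theorem mem_greedy (N m k : ℕ) (ts : List ℕ) (L : List (List Bool)) :
    ∀ t ∈ greedy N m k ts L, t = 0 ∨ t ∈ ts := by
  unfold greedy
  induction k with
  | zero => simp
  | succ k ih =>
    rw [iterate_succ_apply']
    intro t ht
    rcases List.mem_cons.1 ht with rfl | ht
    · exact pick_mem _ _ _ _
    · exact ih t ht

theorem double_count (P : List Bool → ℕ → Bool) (ts : List ℕ) (L : List (List Bool)) :
    (ts.map fun t => L.countP fun v => P v t).sum = (L.map fun v => ts.countP (P v)).sum := by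
  induction L with
  | nil => simp
  | cons v L ih =>
    rw [List.map_cons, List.sum_cons, ← ih]
    clear ih
    induction ts with
    | nil => simp
    | cons t ts ih =>
      simp only [List.map_cons, List.sum_cons, List.countP_cons] at ih ⊢
      omega

theorem pick_spec {N m : ℕ} {ts : List ℕ} {L : List (List Bool)} (hts : ts ≠ [])
    (hL : ∀ v ∈ L, ts.length ≤ m * ts.countP (al N v)) :
    L.length ≤ m * L.countP fun v => al N v (pick N m ts L) := by
  unfold pick
  cases h : ts.find? fun t => decide (L.length ≤ m * L.countP fun v => al N v t) with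
  | some t => simpa using List.find?_some h
  | none =>
    exfalso
    rw [List.find?_eq_none] at h
    have h1 : (ts.map fun t => m * (L.countP fun v => al N v t) + 1).sum ≤
        (ts.map fun _ => L.length).sum :=
      List.sum_le_sum fun t ht => by have := h t ht; simp at this; omega
    have h2 : (L.map fun _ => ts.length).sum ≤ (L.map fun v => m * ts.countP (al N v)).sum :=
      List.sum_le_sum hL
    rw [List.sum_map_add, List.sum_map_mul_left, double_count] at h1
    rw [List.sum_map_mul_left] at h2
    simp only [List.map_const', List.sum_replicate, smul_eq_mul, mul_one] at h1 h2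
    have h3 : 0 < ts.length := List.length_pos_iff.2 hts
    rw [mul_comm L.length] at h2
    omega

theorem two_mul_pow_le (t : ℕ) : 2 * t ^ (t + 1) ≤ (t + 1) ^ (t + 1) := by
  have h : ∀ n, t ^ (n + 1) + (n + 1) * t ^ n ≤ (t + 1) ^ (n + 1) := by
    intro n
    induction n with
    | zero => simp
    | succ n ih =>
      calc t ^ (n + 1 + 1) + (n + 1 + 1) * t ^ (n + 1)
          ≤ (t ^ (n + 1) + (n + 1) * t ^ n) * (t + 1) := by
            have : (t ^ (n + 1) + (n + 1) * t ^ n) * (t + 1) =
              t ^ (n + 1 + 1) + (n + 1 + 1) * t ^ (n + 1) + (n + 1) * t ^ n := by ring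
            omega
        _ ≤ (t + 1) ^ (n + 1) * (t + 1) := Nat.mul_le_mul_right _ ih
        _ = _ := by ring
  have h1 := h t
  have h2 : (t + 1) * t ^ t = t ^ (t + 1) + t ^ t := by ring
  omega

theorem greedy_spec {N m K : ℕ} {ts : List ℕ} {L : List (List Bool)} (hts : ts ≠ [])
    (hm : 0 < m) (hL : ∀ v ∈ L, ts.length ≤ m * ts.countP (al N v)) (hK : L.length < 2 ^ K) :
    ∀ v ∈ L, ∃ t ∈ greedy N m (m * K) ts L, al N v t = true := by
  obtain ⟨r, rfl⟩ : ∃ r, m = r + 1 := ⟨m - 1, by omega⟩
  have key : ∀ k, (∀ v ∈ ((gstep N (r + 1) ts)^[k] (L, [])).1, v ∈ L) ∧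
      (∀ v ∈ L, v ∈ ((gstep N (r + 1) ts)^[k] (L, [])).1 ∨
        ∃ t ∈ ((gstep N (r + 1) ts)^[k] (L, [])).2, al N v t = true) ∧
      (r + 1) ^ k * ((gstep N (r + 1) ts)^[k] (L, [])).1.length ≤ r ^ k * L.length := by
    intro k
    induction k with
    | zero => simp
    | succ k ih =>
      rw [iterate_succ_apply']
      generalize (gstep N (r + 1) ts)^[k] (L, []) = s at ih ⊢
      obtain ⟨h1, h2, h3⟩ := ih
      refine ⟨fun v hv => h1 v (List.mem_of_mem_filter hv), fun v hv => ?_, ?_⟩
      · rcases h2 v hv with h | ⟨t, ht, h⟩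
        · cases h4 : al N v (pick N (r + 1) ts s.1)
          · exact Or.inl (List.mem_filter.2 ⟨h, by simp [h4]⟩)
          · exact Or.inr ⟨_, List.mem_cons_self, h4⟩
        · exact Or.inr ⟨t, List.mem_cons_of_mem _ ht, h⟩
      · have h4 := pick_spec hts fun v hv => hL v (h1 v hv)
        have h5 := List.length_eq_countP_add_countP
          (fun v => al N v (pick N (r + 1) ts s.1)) (l := s.1)
        have h6 : (gstep N (r + 1) ts s).1.length =
            s.1.countP fun v => decide ¬ al N v (pick N (r + 1) ts s.1) = true := by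
          rw [List.countP_eq_length_filter]
          simp [gstep]
        rw [← h6] at h5
        generalize (gstep N (r + 1) ts s).1.length = b at *
        generalize (s.1.countP fun v => al N v (pick N (r + 1) ts s.1)) = c at *
        have h7 : (r + 1) * b ≤ r * s.1.length := by nlinarith
        calc (r + 1) ^ (k + 1) * b = (r + 1) ^ k * ((r + 1) * b) := by ring
          _ ≤ (r + 1) ^ k * (r * s.1.length) := Nat.mul_le_mul_left _ h7
          _ = r * ((r + 1) ^ k * s.1.length) := by ring
          _ ≤ r * (r ^ k * L.length) := Nat.mul_le_mul_left _ h3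
          _ = _ := by ring
  obtain ⟨-, h2, h3⟩ := key ((r + 1) * K)
  intro v hv
  rcases h2 v hv with h | h
  · exfalso
    have h4 : 1 ≤ ((gstep N (r + 1) ts)^[(r + 1) * K] (L, [])).1.length :=
      List.length_pos_of_mem h
    have h5 : (2 * r ^ (r + 1)) ^ K ≤ ((r + 1) ^ (r + 1)) ^ K :=
      Nat.pow_le_pow_left (two_mul_pow_le r) K
    rw [mul_pow, ← pow_mul, ← pow_mul] at h5
    have h6 : 0 < (r + 1) ^ ((r + 1) * K) := by positivity
    have h7 := (Nat.mul_le_mul_left ((r + 1) ^ ((r + 1) * K)) h4).trans h3
    rcases Nat.eq_zero_or_pos (r ^ ((r + 1) * K)) with h8 | h8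
    · rw [h8] at h7; omega
    · nlinarith
  · exact h

end Pool.Agent.Lib.MP_8f56c4_lc
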