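import Pool.Agent.Shared.PolyTimeConv

/-!
The hash family `y ↦ P_y(u) mod p`, where the coefficients of `P_y` are the base `p` digits of `y`.
-/

namespace Pool.Agent.Lib.MP_8f56c4_lc

open Function N487b59b3 Pool.Agent.Shared.PolyTime Polynomial

/-- The contribution of the higher digits. -/
def rest (p N u t : ℕ) : ℕ :=
  ((List.range N).map fun j => t / p ^ min j N % p * u ^ (min j N + 1)).sum

/-- The hash value. -/
def hash (p N u y : ℕ) : ℕ := (y % p + rest p N u (y / p)) % p

/-- The number with given hash value and given higher digits. -/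
def unhash (p N u z t : ℕ) : ℕ := (z + p - rest p N u t % p) % p + p * t

variable {α : Type} [N487b59b3 α]

attribute [local fun_prop] PB.comp

@[fun_prop] theorem pt_rest {p N u t : α → ℕ} (hp : PT p) (hN : PT N) (bN : PB N) (hu : PT u)
    (ht : PT t) : PT fun a => rest (p a) (N a) (u a) (t a) := by
  unfold rest
  fun_prop

@[fun_prop] theorem pt_hash {p N u y : α → ℕ} (hp : PT p) (hN : PT N) (bN : PB N) (hu : PT u)
    (hy : PT y) : PT fun a => hash (p a) (N a) (u a) (y a) := by
  unfold hash; fun_prop

@[fun_prop] theorem pt_unhash {p N u z t : α → ℕ} (hp : PT p) (hN : PT N) (bN : PB N) (hu : PT u)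
    (hz : PT z) (ht : PT t) : PT fun a => unhash (p a) (N a) (u a) (z a) (t a) := by
  unfold unhash; fun_prop

theorem hash_lt {p : ℕ} (hp : 0 < p) (N u y : ℕ) : hash p N u y < p := Nat.mod_lt _ hp

theorem unhash_hash {p : ℕ} (hp : 0 < p) (N u y : ℕ) :
    unhash p N u (hash p N u y) (y / p) = y := by
  unfold unhash hash
  generalize rest p N u (y / p) = r
  have h1 := Nat.mod_lt y hp
  have h2 := Nat.mod_lt r hp
  have h3 := Nat.mod_add_div y p
  have h4 : ((y % p + r) % p + p - r % p) % p = y % p := by
    rw [Nat.add_mod (y % p) r, Nat.mod_mod]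
    generalize y % p = a at *
    generalize r % p = b at *
    rcases lt_or_ge (a + b) p with h | h
    · rw [Nat.mod_eq_of_lt h]
      have : a + b + p - b = a + p := by omega
      rw [this, Nat.add_mod_right, Nat.mod_eq_of_lt h1]
    · have h5 : (a + b) % p = a + b - p := by
        rw [Nat.mod_eq_sub_mod h, Nat.mod_eq_of_lt (by omega)]
      have : a + b - p + p - b = a := by omega
      rw [h5, this, Nat.mod_eq_of_lt h1]
  rw [h4, h3]

theorem unhash_le (p N u z t : ℕ) : unhash p N u z t ≤ (z + p) + p * t := by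
  unfold unhash
  have := Nat.mod_le (z + p - rest p N u t % p) p
  omega

theorem eq_of_digits {p : ℕ} (n : ℕ) : ∀ y y' : ℕ, y < p ^ n → y' < p ^ n →
    (∀ j < n, y / p ^ j % p = y' / p ^ j % p) → y = y' := by
  induction n with
  | zero => intro y y' h h' _; simp at h h'; omega
  | succ n ih =>
    intro y y' h h' hd
    have h0 := hd 0 (by omega)
    simp only [pow_zero, Nat.div_one] at h0
    have h1 : y / p = y' / p := by
      refine ih _ _ (Nat.div_lt_of_lt_mul (by rwa [pow_succ'] at h))
        (Nat.div_lt_of_lt_mul (by rwa [pow_succ'] at h')) fun j hj => ?_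
      have := hd (j + 1) (by omega)
      rwa [pow_succ', ← Nat.div_div_eq_div_mul, ← Nat.div_div_eq_div_mul] at this
    rw [← Nat.mod_add_div y p, ← Nat.mod_add_div y' p, h0, h1]

/-- The polynomial of digits. -/
noncomputable def dpoly (p N y : ℕ) : (ZMod p)[X] :=
  ∑ j ∈ Finset.range (N + 1), monomial j ((y / p ^ j % p : ℕ) : ZMod p)

theorem sum_map_range (f : ℕ → ℕ) (n : ℕ) :
    ((List.range n).map f).sum = ∑ j ∈ Finset.range n, f j := by
  induction n with
  | zero => simp
  | succ n ih => rw [List.range_succ, Finset.sum_range_succ, ← ih]; simp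

theorem eval_dpoly (p N u y : ℕ) :
    (dpoly p N y).eval (u : ZMod p) = ((hash p N u y : ℕ) : ZMod p) := by
  unfold dpoly hash rest
  rw [ZMod.natCast_mod, eval_finsetSum, Finset.sum_range_succ', add_comm, Nat.cast_add]
  congr 1
  · simp
  · rw [sum_map_range, Nat.cast_sum]
    refine Finset.sum_congr rfl fun j hj => ?_
    rw [min_eq_left (Finset.mem_range.1 hj).le, eval_monomial, pow_succ' p, Nat.div_div_eq_div_mul]
    push_cast
    rfl

theorem coeff_dpoly (p N y j : ℕ) (hj : j < N + 1) :
    (dpoly p N y).coeff j = ((y / p ^ j % p : ℕ) : ZMod p) := by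
  unfold dpoly
  rw [finsetSum_coeff]
  simp only [coeff_monomial]
  rw [Finset.sum_ite_eq' (Finset.range (N + 1)) j, if_pos (Finset.mem_range.2 hj)]

theorem natDegree_dpoly (p N y : ℕ) : (dpoly p N y).natDegree ≤ N := by
  unfold dpoly
  refine natDegree_sum_le_of_forall_le _ _ fun j hj => ?_
  exact (natDegree_monomial_le _).trans (by have := Finset.mem_range.1 hj; omega)

theorem card_coll {p N y y' : ℕ} (hp : p.Prime) (hy : y < 2 ^ N) (hy' : y' < 2 ^ N)
    (hne : y ≠ y') :
    ((Finset.range p).filter fun u => hash p N u y = hash p N u y').card ≤ N := by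
  have := Fact.mk hp
  have hb : 2 ^ N ≤ p ^ (N + 1) :=
    (Nat.pow_le_pow_left hp.two_le N).trans (Nat.pow_le_pow_right hp.pos (by omega))
  have hD : dpoly p N y - dpoly p N y' ≠ 0 := by
    intro h
    refine hne (eq_of_digits (p := p) (N + 1) y y' (by omega) (by omega) fun j hj => ?_)
    have h1 := congrArg (fun P => coeff P j) (sub_eq_zero.1 h)
    simp only [coeff_dpoly _ _ _ _ hj] at h1
    have h2 := (ZMod.natCast_eq_natCast_iff' _ _ _).1 h1
    simpa using h2
  have hdeg : (dpoly p N y - dpoly p N y').natDegree ≤ N :=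
    (natDegree_sub_le _ _).trans (max_le (natDegree_dpoly _ _ _) (natDegree_dpoly _ _ _))
  refine le_trans ?_ (((Multiset.toFinset_card_le _).trans (card_roots' _)).trans hdeg)
  refine Finset.card_le_card_of_injOn (fun u => (u : ZMod p)) (fun u hu => ?_) ?_
  · have h1 := (Finset.mem_filter.1 hu).2
    simp only [Finset.mem_coe, Multiset.mem_toFinset, mem_roots hD, IsRoot, eval_sub, eval_dpoly,
      h1, sub_self]
  · intro u hu v hv h
    have h1 := Finset.mem_range.1 (Finset.mem_filter.1 hu).1
    have h2 := Finset.mem_range.1 (Finset.mem_filter.1 hv).1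
    have h3 := (ZMod.natCast_eq_natCast_iff' _ _ _).1 h
    rwa [Nat.mod_eq_of_lt h1, Nat.mod_eq_of_lt h2] at h3

theorem card_le_image_add (f : ℕ → ℕ) (S : Finset ℕ) :
    S.card ≤ (S.image f).card + (S.offDiag.filter fun q => f q.1 = f q.2).card := by
  induction S using Finset.induction_on with
  | empty => simp
  | insert a S ha ih =>
    rw [Finset.card_insert_of_notMem ha, Finset.image_insert]
    have hsub : (S.offDiag.filter fun q => f q.1 = f q.2) ⊆
        ((insert a S).offDiag.filter fun q => f q.1 = f q.2) :=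
      Finset.filter_subset_filter _ (Finset.offDiag_mono (Finset.subset_insert a S))
    by_cases h : f a ∈ S.image f
    · rw [Finset.insert_eq_of_mem h]
      obtain ⟨b, hb, hab⟩ := Finset.mem_image.1 h
      have := Finset.card_lt_card (Finset.ssubset_iff_of_subset hsub |>.2
        ⟨(a, b), by
          simp only [Finset.mem_filter, Finset.mem_offDiag, Finset.mem_insert]
          exact ⟨⟨by simp, Or.inr hb, fun e => ha (e ▸ hb)⟩, hab.symm⟩,
         by simp [ha]⟩)
      omega
    · rw [Finset.card_insert_of_notMem h]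
      have := Finset.card_le_card hsub
      omega

theorem sum_coll {p N : ℕ} (hp : p.Prime) (S : Finset ℕ) (hS : ∀ y ∈ S, y < 2 ^ N) :
    ∑ u ∈ Finset.range p, (S.offDiag.filter fun q => hash p N u q.1 = hash p N u q.2).card ≤
      S.card * S.card * N := by
  simp only [Finset.card_filter]
  rw [Finset.sum_comm]
  refine (Finset.sum_le_card_nsmul _ _ N fun q hq => ?_).trans ?_
  · rw [← Finset.card_filter]
    obtain ⟨h1, h2, h3⟩ := Finset.mem_offDiag.1 hq
    exact card_coll hp (hS _ h1) (hS _ h2) h3
  · rw [smul_eq_mul, Finset.offDiag_card]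
    exact Nat.mul_le_mul_right _ (Nat.sub_le _ _)

/-- A small set is hashed injectively by some member of the family. -/
theorem exists_inj {p N : ℕ} (hp : p.Prime) (S : Finset ℕ) (hS : ∀ y ∈ S, y < 2 ^ N)
    (hc : S.card * S.card * N < p) :
    ∃ u < p, ∀ y ∈ S, ∀ y' ∈ S, hash p N u y = hash p N u y' → y = y' := by
  by_contra h
  push Not at h
  have h1 := sum_coll hp S hS
  have h2 := Finset.card_nsmul_le_sum (Finset.range p)
    (fun u => (S.offDiag.filter fun q => hash p N u q.1 = hash p N u q.2).card) 1 fun u hu => by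
      obtain ⟨y, hy, y', hy', h3, h4⟩ := h u (Finset.mem_range.1 hu)
      exact Finset.card_pos.2 ⟨(y, y'), by simp [hy, hy', h3, h4]⟩
  simp only [Finset.card_range, smul_eq_mul, mul_one] at h2
  omega

/-- A large set meets many hash classes. -/
theorem many_alive {p N : ℕ} (hp : p.Prime) (S : Finset ℕ) (hS : ∀ y ∈ S, y < 2 ^ N)
    (A : Finset ℕ) (hA : ∀ u < p, ∀ y ∈ S, u * p + hash p N u y ∈ A) :
    p * S.card ≤ A.card + S.card * S.card * N := by
  have h1 := sum_coll hp S hS
  have h2 : ∑ u ∈ Finset.range p, S.card ≤ ∑ u ∈ Finset.range p,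
      ((S.image (hash p N u)).card +
        (S.offDiag.filter fun q => hash p N u q.1 = hash p N u q.2).card) :=
    Finset.sum_le_sum fun u _ => card_le_image_add _ S
  rw [Finset.sum_add_distrib, Finset.sum_const, Finset.card_range, smul_eq_mul] at h2
  have h3 : ∑ u ∈ Finset.range p, (S.image (hash p N u)).card ≤ A.card := by
    rw [← Finset.card_sigma]
    refine Finset.card_le_card_of_injOn (fun q => q.1 * p + q.2) (fun q hq => ?_) ?_
    · obtain ⟨h4, h5⟩ := Finset.mem_sigma.1 hq
      obtain ⟨y, hy, h6⟩ := Finset.mem_image.1 h5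
      simp only [← h6]
      exact hA _ (Finset.mem_range.1 h4) y hy
    · rintro ⟨u, z⟩ hq ⟨u', z'⟩ hq' h
      obtain ⟨y, -, h6⟩ := Finset.mem_image.1 (Finset.mem_sigma.1 hq).2
      obtain ⟨y', -, h6'⟩ := Finset.mem_image.1 (Finset.mem_sigma.1 hq').2
      have h7 : z < p := lt_of_eq_of_lt h6.symm (hash_lt hp.pos _ _ _)
      have h7' : z' < p := lt_of_eq_of_lt h6'.symm (hash_lt hp.pos _ _ _)
      simp only at h
      have h8 : z = z' := by
        have := congrArg (· % p) h
        simpa [Nat.mod_eq_of_lt h7, Nat.mod_eq_of_lt h7'] using this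
      subst h8
      have h9 : u = u' := Nat.eq_of_mul_eq_mul_right hp.pos (by omega)
      subst h9
      rfl
  omega

end Pool.Agent.Lib.MP_8f56c4_lc
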