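import Pool.Agent.Lib.MP_8f56c4_lc.Dec
import Pool.Agent.Lib.MP_8f56c4_lc.Hash
import Pool.Agent.Lib.MP_8f56c4_lc.Greedy

/-!
The algorithm: if the vectors of answers to parallel `NP` queries can be listed in polynomial
time, witnesses can be found in polynomial time.  Each round halves the range of the witnesses.
-/

namespace Pool.Agent.Lib.MP_8f56c4_lc

open Function N487b59b3 Pool.Agent.Shared.PolyTime

attribute [local fun_prop] PB.comp

/-- Test for a prime between `D` and `2 D`. -/
def isP (D p : ℕ) : Bool :=
  decide (D < p) && (List.range (2 * D + 1)).all fun d =>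
    decide (d < 2) || decide (p ≤ d) || decide (p % d ≠ 0)

/-- A prime between `D` and `2 D`. -/
def pr (D : ℕ) : ℕ := ((List.range (2 * D + 1)).find? (isP D)).getD 0

theorem pr_le (D : ℕ) : pr D ≤ 2 * D := by
  unfold pr
  cases h : (List.range (2 * D + 1)).find? (isP D) with
  | none => simp
  | some t => have := List.mem_range.1 (List.mem_of_find?_eq_some h); simp; omega

theorem pr_spec {D : ℕ} (hD : D ≠ 0) : (pr D).Prime ∧ D < pr D := by
  have h0 := pr_le D
  unfold pr at h0 ⊢
  cases h : (List.range (2 * D + 1)).find? (isP D) with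
  | none =>
    exfalso
    obtain ⟨p, hp, h1, h2⟩ := Nat.exists_prime_lt_and_le_two_mul D hD
    refine List.find?_eq_none.1 h p (List.mem_range.2 (by omega)) ?_
    simp only [isP, Bool.and_eq_true, decide_eq_true_eq, List.all_eq_true, Bool.or_eq_true]
    refine ⟨h1, fun d _ => ?_⟩
    by_contra hc
    push Not at hc
    have := (Nat.dvd_prime hp).1 (Nat.dvd_of_mod_eq_zero hc.2)
    omega
  | some t =>
    have h1 := List.find?_some h
    rw [h] at h0
    simp only [isP, Bool.and_eq_true, decide_eq_true_eq, List.all_eq_true, Bool.or_eq_true,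
      Option.getD_some] at h0 h1 ⊢
    refine ⟨Nat.prime_def_lt'.2 ⟨by omega, fun m h2 h3 h4 => ?_⟩, h1.1⟩
    have := h1.2 m (List.mem_range.2 (by omega))
    have := Nat.mod_eq_zero_of_dvd h4
    omega

/-- The prime used for `n.length` witness bits. -/
def pp (n : List Bool) : ℕ := pr (256 * n.length ^ 3)

variable {α : Type} [N487b59b3 α]

@[fun_prop] theorem pt_pp {n : α → List Bool} (hn : PT n) : PT fun a => pp (n a) := by
  unfold pp pr isP; fun_prop

@[fun_prop] theorem pb_pp {n : α → List Bool} (hn : PT n) : PB fun a => pp (n a) :=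
  PB.mono (g := fun a => 2 * (256 * (n a).length ^ 3)) (by fun_prop) fun _ => pr_le _

/-- Undo one round. -/
def dec1 (p N y : ℕ) (T : List ℕ) : ℕ :=
  unhash p N (T.getD (y % T.length) 0 / p) (T.getD (y % T.length) 0 % p) (y / T.length)

/-- Undo all rounds. -/
def decH (p N : ℕ) (H : List (List ℕ)) (y : ℕ) : ℕ := H.foldl (dec1 p N) y

@[fun_prop] theorem pt_decH {p N y : α → ℕ} {H : α → List (List ℕ)} (hp : PT p) (hN : PT N)
    (bN : PB N) (hH : PT H) (hy : PT y) : PT fun a => decH (p a) (N a) (H a) (y a) := by
  refine PT.foldl_grow (f := fun a s T => dec1 (p a) (N a) s T) (by unfold dec1; fun_prop) hH hy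
    (g := fun a => sz (H a) + sz (p a) + 2) (by fun_prop) fun a s T hT => ?_
  have h1 := sz_nat_mono (unhash_le (p a) (N a) (T.getD (s % T.length) 0 / p a)
    (T.getD (s % T.length) 0 % p a) (s / T.length))
  have h2 := sz_add_le (T.getD (s % T.length) 0 % p a + p a) (p a * (s / T.length))
  have h3 := sz_add_le (T.getD (s % T.length) 0 % p a) (p a)
  have h4 := sz_mul_le (p a) (s / T.length)
  have h5 := sz_nat_mono (Nat.div_le_self s T.length)
  have h6 := sz_nat_mono (Nat.mod_le (T.getD (s % T.length) 0) (p a))
  have h7 := sz_mem hT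
  have h8 : sz (T.getD (s % T.length) 0) ≤ sz T := by
    rcases lt_or_ge (s % T.length) T.length with h | h
    · rw [List.getD_eq_getElem _ _ h]
      have := sz_mem (List.getElem_mem h); omega
    · rw [List.getD_eq_default _ _ h]; exact (sz_nat_le 0).trans (Nat.zero_le _)
  unfold dec1
  omega

/-- Input, unary number of witness bits, and history of the rounds. -/
abbrev St := (List Bool × List Bool) × List (List ℕ)

/-- The current witness predicate. -/
def wit (V : List Bool → ℕ → Bool) (s : St) (y : ℕ) : Bool :=
  V s.1.1 (decH (pp s.1.2) s.1.2.length s.2 y)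

/-- The matrix of the `i`-th query. -/
def qry (V : List Bool → ℕ → Bool) (s : St) (i y : ℕ) : Bool :=
  wit V s y && decide (hash (pp s.1.2) s.1.2.length (i / (s.1.2.length + 1) / pp s.1.2) y =
      i / (s.1.2.length + 1) % pp s.1.2) &&
    (decide (i % (s.1.2.length + 1) = s.1.2.length) || y.bits.getD (i % (s.1.2.length + 1)) false)

/-- The tests chosen in the next round. -/
def sel (E : St → List (List Bool)) (s : St) : List ℕ :=
  greedy s.1.2.length (pp s.1.2 / (4 * s.1.2.length))
    (pp s.1.2 / (4 * s.1.2.length) * s.1.2.length) (List.range (pp s.1.2 * pp s.1.2))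
    ((E s).filter fun v => decide (pp s.1.2 * pp s.1.2 ≤ pp s.1.2 / (4 * s.1.2.length) *
      (List.range (pp s.1.2 * pp s.1.2)).countP (al s.1.2.length v)))

/-- The number written in the `t`-th block of a vector. -/
def readout (n v : List Bool) (t : ℕ) : ℕ :=
  val ((List.range n.length).map fun j => v.getD (t * (n.length + 1) + j) false)

/-- Try the candidates of the current round. -/
def check (V : List Bool → ℕ → Bool) (E : St → List (List Bool)) (s : St) : Bool :=
  (List.range (pp s.1.2) ++ (E s).flatMap fun v =>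
    (List.range (pp s.1.2 * pp s.1.2)).map (readout s.1.2 v)).any (wit V s)

/-- The history after `i` rounds. -/
def hist (E : St → List (List Bool)) (I : List Bool × List Bool) (i : ℕ) : List (List ℕ) :=
  (fun H => sel E (I, H) :: H)^[i] []

/-- The algorithm. -/
def alg (V : List Bool → ℕ → Bool) (E : St → List (List Bool)) (I : List Bool × List Bool) :
    Bool :=
  (List.range (I.2.length + 1)).any fun i => check V E (I, hist E I (min i I.2.length))

section PT

variable {V : List Bool → ℕ → Bool} {E : St → List (List Bool)}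

theorem pt_wit (hV : PT fun q : List Bool × ℕ => V q.1 q.2) {s : α → St} {y : α → ℕ} (hs : PT s)
    (hy : PT y) : PT fun a => wit V (s a) (y a) :=
  hV.comp' (f := fun a => ((s a).1.1, decH (pp (s a).1.2) (s a).1.2.length (s a).2 (y a)))
    (by fun_prop)

theorem pt_qry (hV : PT fun q : List Bool × ℕ => V q.1 q.2) :
    PT fun q : (St × ℕ) × ℕ => qry V q.1.1 q.1.2 q.2 := by
  unfold qry
  exact ((pt_wit hV (by fun_prop) (by fun_prop)).and (by fun_prop)).and (by fun_prop)

theorem pt_sel (hE : PT E) : PT (sel E) := by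
  unfold sel
  refine pt_greedy (by fun_prop) (by fun_prop) (by fun_prop) ?_ (by fun_prop) (by fun_prop)
  exact PB.mono (g := fun s : St => pp s.1.2 * s.1.2.length) (by fun_prop)
    fun s => Nat.mul_le_mul_right _ (Nat.div_le_self _ _)

theorem pt_check (hV : PT fun q : List Bool × ℕ => V q.1 q.2) (hE : PT E) : PT (check V E) := by
  unfold check
  refine PT.any (by unfold readout; fun_prop) (pt_wit hV (by fun_prop) (by fun_prop))

theorem four_mul_le (p N : ℕ) : 4 * (p / (4 * N) * N) ≤ p := by
  have := Nat.div_mul_le_self p (4 * N)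
  nlinarith

theorem sz_sel (E : St → List (List Bool)) (s : St) :
    sz (sel E s) ≤ pp s.1.2 * (2 * (pp s.1.2 * pp s.1.2) + 1) := by
  refine (sz_list_le (B := pp s.1.2 * pp s.1.2) fun t ht => ?_).trans ?_
  · rcases mem_greedy _ _ _ _ _ t ht with h | h
    · rw [h]; exact (sz_nat_le 0).trans (Nat.zero_le _)
    · exact (sz_nat_le t).trans (List.mem_range.1 h).le
  · unfold sel
    rw [length_greedy]
    have := four_mul_le (pp s.1.2) s.1.2.length
    exact Nat.mul_le_mul_right _ (by omega)

theorem pt_alg (hV : PT fun q : List Bool × ℕ => V q.1 q.2) (hE : PT E) : PT (alg V E) := by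
  unfold alg
  refine PT.any (by fun_prop) ((pt_check hV hE).comp' (PT.pair (by fun_prop) ?_))
  unfold hist
  have h1 := pt_sel hE
  exact PT.iterate_grow (f := fun (q : (List Bool × List Bool) × ℕ) H => sel E (q.1, H) :: H)
    (by fun_prop) (by fun_prop) (by fun_prop) (by fun_prop)
    (g := fun q => 2 * (pp q.1.2 * (2 * (pp q.1.2 * pp q.1.2) + 1)) + 1) (by fun_prop)
    (fun q H => by have := sz_sel E (q.1, H); simp only [sz_cons] at this ⊢; omega)

end PT

theorem length_hist (E : St → List (List Bool)) (I : List Bool × List Bool) (i : ℕ) :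
    (hist E I i).length = i := by
  unfold hist
  induction i with
  | zero => rfl
  | succ i ih => rw [iterate_succ_apply', List.length_cons, ih]

theorem hist_succ (E : St → List (List Bool)) (I : List Bool × List Bool) (i : ℕ) :
    hist E I (i + 1) = sel E (I, hist E I i) :: hist E I i := by
  unfold hist; rw [iterate_succ_apply']

theorem sz_hist (E : St → List (List Bool)) (I : List Bool × List Bool) (i : ℕ) :
    sz (hist E I i) ≤ i * (2 * (pp I.2 * (2 * (pp I.2 * pp I.2) + 1)) + 1) := by
  induction i with
  | zero => simp [hist]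
  | succ i ih =>
    rw [hist_succ, sz_cons, add_mul]
    have := sz_sel E (I, hist E I i)
    simp only at this
    omega

theorem val_map_getD (l : List Bool) : ∀ N, l.length ≤ N →
    val ((List.range N).map fun j => l.getD j false) = val l := by
  induction l with
  | nil => intro N _; simpa [val] using val_map_false (List.range N)
  | cons b l ih =>
    intro N h
    obtain ⟨N, rfl⟩ : ∃ k, N = k + 1 := ⟨N - 1, by simp at h; omega⟩
    rw [List.range_succ_eq_map, List.map_cons, List.map_map, val, val, ← ih N (by simpa using h)]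
    rfl

/-- The vector `v` holds the answers to all queries about the state `s`. -/
def True' (V : List Bool → ℕ → Bool) (s : St) (v : List Bool) : Prop :=
  ∀ i < pp s.1.2 * pp s.1.2 * (s.1.2.length + 1),
    (v.getD i false = true ↔ ∃ y < 2 ^ (s.1.2.length - s.2.length), qry V s i y = true)

theorem True'.block {V : List Bool → ℕ → Bool} {s : St} {v : List Bool} (hv : True' V s v)
    {t j : ℕ} (ht : t < pp s.1.2 * pp s.1.2) (hj : j ≤ s.1.2.length) :
    v.getD (t * (s.1.2.length + 1) + j) false = true ↔
      ∃ y < 2 ^ (s.1.2.length - s.2.length), wit V s y = true ∧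
        hash (pp s.1.2) s.1.2.length (t / pp s.1.2) y = t % pp s.1.2 ∧
        (j = s.1.2.length ∨ y.bits.getD j false = true) := by
  have h1 : (t * (s.1.2.length + 1) + j) / (s.1.2.length + 1) = t := by
    rw [add_comm, Nat.add_mul_div_right _ _ (by omega), Nat.div_eq_of_lt (by omega), zero_add]
  have h2 : (t * (s.1.2.length + 1) + j) % (s.1.2.length + 1) = j := by
    rw [add_comm, Nat.add_mul_mod_self_right, Nat.mod_eq_of_lt (by omega)]
  rw [hv _ (by nlinarith)]
  simp only [qry, h1, h2, Bool.and_eq_true, decide_eq_true_eq, Bool.or_eq_true, and_assoc]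

theorem round {V : List Bool → ℕ → Bool} {E : St → List (List Bool)} {s : St}
    (hN : s.1.2.length ≠ 0) (hE : (E s).length < 2 ^ s.1.2.length) {v : List Bool} (hvE : v ∈ E s)
    (hv : True' V s v) {y : ℕ} (hy : y < 2 ^ (s.1.2.length - s.2.length))
    (hw : wit V s y = true) :
    check V E s = true ∨ (s.2.length < s.1.2.length ∧
      ∃ y' < 2 ^ (s.1.2.length - (s.2.length + 1)), wit V (s.1, sel E s :: s.2) y' = true) := by
  obtain ⟨hp, hD⟩ : (pp s.1.2).Prime ∧ 256 * s.1.2.length ^ 3 < pp s.1.2 :=
    pr_spec (by positivity)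
  have hb := @True'.block V s v hv
  unfold check sel
  set p := pp s.1.2 with hpd
  set N := s.1.2.length with hNd
  set M := 2 ^ (N - s.2.length) with hM
  have hMN : M ≤ 2 ^ N := Nat.pow_le_pow_right (by omega) (by omega)
  have hdiv : ∀ u z, z < p → (u * p + z) / p = u ∧ (u * p + z) % p = z := fun u z hz =>
    ⟨by rw [add_comm, Nat.add_mul_div_right _ _ hp.pos, Nat.div_eq_of_lt hz, zero_add],
      by rw [add_comm, Nat.add_mul_mod_self_right, Nat.mod_eq_of_lt hz]⟩
  rcases le_or_gt M p with hMp | hMp
  · exact Or.inl (List.any_eq_true.2 ⟨y, List.mem_append_left _ (List.mem_range.2 (by omega)), hw⟩)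
  have hlen : s.2.length < N := by
    by_contra h
    rw [Nat.sub_eq_zero_of_le (by omega), pow_zero] at hM
    have := hp.two_le
    omega
  set W := (Finset.range M).filter fun y => wit V s y = true with hW
  have hWm : ∀ z, z ∈ W ↔ z < M ∧ wit V s z = true := fun z => by simp [hW]
  rcases lt_or_ge W.card (16 * N) with hc | hc
  · left
    obtain ⟨u, hu, hinj⟩ := exists_inj (N := N) hp W (fun z hz => ((hWm z).1 hz).1.trans_le hMN)
      (by
        have h1 : W.card * W.card ≤ (16 * N) * (16 * N) := Nat.mul_le_mul hc.le hc.le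
        have h2 := Nat.mul_le_mul_right N h1
        have h3 : 16 * N * (16 * N) * N = 256 * N ^ 3 := by ring
        omega)
    have hz := hash_lt hp.pos N u y
    have ht : u * p + hash p N u y < p * p := by nlinarith
    refine List.any_eq_true.2 ⟨y, List.mem_append_right _ (List.mem_flatMap.2 ⟨v, hvE,
      List.mem_map.2 ⟨_, List.mem_range.2 ht, ?_⟩⟩), hw⟩
    unfold readout
    have hbl : y.bits.length ≤ N := by
      rw [Nat.size_eq_bits_len, Nat.size_le]; omega
    refine Eq.trans ?_ ((val_map_getD y.bits N hbl).trans (val_bits y))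
    congr 1
    refine List.map_congr_left fun j hj => ?_
    have hj' := List.mem_range.1 hj
    rw [Bool.eq_iff_iff, hb ht hj'.le, (hdiv _ _ hz).1, (hdiv _ _ hz).2]
    constructor
    · rintro ⟨y', h1, h2, h3, h4⟩
      rw [hinj y' ((hWm _).2 ⟨h1, h2⟩) y ((hWm _).2 ⟨hy, hw⟩) h3] at h4
      exact h4.resolve_left (by omega)
    · exact fun h => ⟨y, hy, hw, rfl, Or.inr h⟩
  · right
    refine ⟨hlen, ?_⟩
    obtain ⟨S, hSW, hS⟩ := Finset.exists_subset_card_eq hc
    have hA := many_alive (N := N) hp S (fun z hz => ((hWm z).1 (hSW hz)).1.trans_le hMN)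
      ((Finset.range (p * p)).filter fun t => al N v t = true) (fun u hu z hz => by
        have h0 := hash_lt hp.pos N u z
        have ht : u * p + hash p N u z < p * p := by nlinarith
        refine Finset.mem_filter.2 ⟨Finset.mem_range.2 ht, ?_⟩
        unfold al
        rw [hb ht le_rfl, (hdiv _ _ h0).1, (hdiv _ _ h0).2]
        exact ⟨z, ((hWm z).1 (hSW hz)).1, ((hWm z).1 (hSW hz)).2, rfl, Or.inl rfl⟩)
    have hcount : ((Finset.range (p * p)).filter fun t => al N v t = true).card =
        (List.range (p * p)).countP (al N v) := by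
      rw [← Nat.count_eq_card_filter_range, Nat.count]
      simp
    rw [hcount, hS] at hA
    set m := p / (4 * N) with hm
    have hN1 : 1 ≤ N := Nat.pos_of_ne_zero hN
    have hN3 : N ≤ N ^ 3 := Nat.le_self_pow (by omega) N
    have hm1 : p < (m + 1) * (4 * N) := by
      rw [mul_comm]; exact Nat.lt_mul_div_succ p (by omega)
    have hm0 : 0 < m := Nat.div_pos (by omega) (by omega)
    have hrich : p * p ≤ m * (List.range (p * p)).countP (al N v) := by
      generalize (List.range (p * p)).countP (al N v) = c at hA ⊢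
      have h3 : 16 * N * (16 * N) * N = 256 * N ^ 3 := by ring
      have h4 : p * (8 * N) ≤ c := by nlinarith
      have h5 : p ≤ m * (8 * N) := by nlinarith
      calc p * p ≤ m * (8 * N) * p := Nat.mul_le_mul_right _ h5
        _ = m * (p * (8 * N)) := by ring
        _ ≤ _ := Nat.mul_le_mul_left _ h4
    obtain ⟨t, htT, hal⟩ := greedy_spec (N := N) (K := N) (ts := List.range (p * p))
      (L := (E s).filter fun v => decide (p * p ≤ m * (List.range (p * p)).countP (al N v)))
      (by simpa using hp.ne_zero) hm0
      (fun w hw => by simpa using (List.mem_filter.1 hw).2)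
      ((List.length_filter_le _ _).trans_lt hE) v (List.mem_filter.2 ⟨hvE, by simpa using hrich⟩)
    have ht : t < p * p := by
      rcases mem_greedy _ _ _ _ _ t htT with h | h
      · rw [h]; exact Nat.mul_pos hp.pos hp.pos
      · exact List.mem_range.1 h
    have hTl := length_greedy N m (m * N) (List.range (p * p))
      ((E s).filter fun v => decide (p * p ≤ m * (List.range (p * p)).countP (al N v)))
    generalize greedy N m (m * N) _ _ = T at htT hTl ⊢
    obtain ⟨i, hi, hTi⟩ := List.getElem_of_mem htT
    unfold al at hal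
    rw [hb ht le_rfl] at hal
    obtain ⟨z, hz, hwz, hh, -⟩ := hal
    refine ⟨i + T.length * (z / p), ?_, ?_⟩
    · have h1 : 4 * T.length ≤ p := hTl ▸ four_mul_le p N
      have h2 := Nat.mul_div_le z p
      have h3 : M = 2 * 2 ^ (N - (s.2.length + 1)) := by
        rw [hM, ← pow_succ']; congr 1; omega
      have h4 := Nat.mul_le_mul_right (z / p) h1
      nlinarith
    · rw [← hwz]
      unfold wit decH
      simp only [List.foldl_cons]
      congr 2
      unfold dec1
      rw [Nat.add_mul_mod_self_left, Nat.mod_eq_of_lt hi, Nat.add_mul_div_left _ _ (by omega),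
        Nat.div_eq_of_lt hi, zero_add, List.getD_eq_getElem _ _ hi, hTi, ← hpd, ← hNd, ← hh,
        unhash_hash hp.pos]

theorem poly_lt_two_pow (r : Polynomial ℕ) : ∃ C, ∀ N, C ≤ N → r.eval N < 2 ^ N := by
  have h : Filter.Tendsto (fun n : ℕ => ((r.eval n : ℕ) : ℝ) / 2 ^ n) Filter.atTop (nhds 0) := by
    induction r using Polynomial.induction_on' with
    | add p q hp hq => simpa [add_div] using hp.add hq
    | monomial k c =>
      have := (tendsto_pow_const_div_const_pow_of_one_lt k (r := 2) (by norm_num)).const_mul (c : ℝ)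
      simpa [mul_div_assoc] using this
  obtain ⟨C, hC⟩ := Filter.eventually_atTop.1 (h.eventually (gt_mem_nhds one_pos))
  refine ⟨C, fun N hN => ?_⟩
  have := hC N hN
  rw [div_lt_one (by positivity)] at this
  exact_mod_cast this

theorem alg_sound {V : List Bool → ℕ → Bool} {E : St → List (List Bool)}
    {I : List Bool × List Bool} (h : alg V E I = true) : ∃ y, V I.1 y = true := by
  obtain ⟨i, -, h1⟩ := List.any_eq_true.1 h
  obtain ⟨y, -, h2⟩ := List.any_eq_true.1 h1
  exact ⟨_, h2⟩

theorem alg_complete {V : List Bool → ℕ → Bool} {E : St → List (List Bool)} (hE : PT E)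
    (hT : ∀ s, ∃ v ∈ E s, True' V s v) :
    ∃ C, ∀ I : List Bool × List Bool, C ≤ I.2.length → I.1.length ≤ I.2.length →
      (∃ y < 2 ^ I.2.length, V I.1 y = true) → alg V E I = true := by
  obtain ⟨q, hq⟩ := PB.length hE
  have h1 : PB fun n : List Bool => 2 * (9 * n.length + 1) + 1 +
      n.length * (2 * (pp n * (2 * (pp n * pp n) + 1)) + 1) := by fun_prop
  obtain ⟨r, hr⟩ := PBe.eval h1 q
  obtain ⟨C, hC⟩ := poly_lt_two_pow (r.comp (3 * Polynomial.X))
  refine ⟨C + 1, fun I hI hx ⟨y, hy, hV⟩ => ?_⟩
  have hlen : ∀ i ≤ I.2.length, (E (I, hist E I i)).length < 2 ^ I.2.length := by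
    intro i hi
    refine (hq _).trans_lt (lt_of_le_of_lt ?_ (hC _ (by omega)))
    have h2 := hr I.2
    have h3 : (bitEncode I.2).length = 3 * I.2.length := sz_listBool _
    rw [h3] at h2
    simp only [Polynomial.eval_comp, Polynomial.eval_mul, Polynomial.eval_X,
      Polynomial.eval_ofNat]
    refine le_trans (eval_mono q ?_) h2
    change sz (I, hist E I i) ≤ _
    have h4 := (sz_hist E I i).trans (Nat.mul_le_mul_right _ hi)
    rw [sz_pair, sz_prod I, sz_listBool, sz_listBool]
    omega
  have key : ∀ k i, i + k = I.2.length →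
      (∃ y < 2 ^ (I.2.length - i), wit V (I, hist E I i) y = true) → alg V E I = true := by
    intro k
    induction k with
    | zero =>
      rintro i hi ⟨y, hy, hw⟩
      obtain ⟨v, hvE, hv⟩ := hT (I, hist E I i)
      rcases round (s := (I, hist E I i)) (by simp only; omega) (hlen i (by omega)) hvE hv
        (by simpa only [length_hist] using hy) hw with h | ⟨h, -⟩
      · exact List.any_eq_true.2 ⟨i, List.mem_range.2 (by omega), by rwa [min_eq_left (by omega)]⟩
      · simp only [length_hist] at h; omega
    | succ k ih =>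
      rintro i hi ⟨y, hy, hw⟩
      obtain ⟨v, hvE, hv⟩ := hT (I, hist E I i)
      rcases round (s := (I, hist E I i)) (by simp only; omega) (hlen i (by omega)) hvE hv
        (by simpa only [length_hist] using hy) hw with h | ⟨-, h⟩
      · exact List.any_eq_true.2 ⟨i, List.mem_range.2 (by omega), by rwa [min_eq_left (by omega)]⟩
      · refine ih (i + 1) (by omega) ?_
        rw [hist_succ]
        simpa only [length_hist] using h
  exact key I.2.length 0 (by omega) ⟨y, hy, hV⟩

end Pool.Agent.Lib.MP_8f56c4_lc
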